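import Pool.Agent.H23.TSDefs

/-!
# [H30 KF Cns] the two balls

`F` = the sets of `Fin (m + 1)` without `Fin.last m` with at least `a + 1` elements, `G` = those with at least `a` elements.
`|A ∩ B| ≥ |A| + |B| - m ≥ 2 a + 1 - m = t`, `|A ∪ B| ≤ m`.  Cardinalities: `card_powersetCard` for the complement of `Fin.last m`
(`univ.erase (Fin.last m)`, `m` elements), `Finset.card_eq_sum_card_fiberwise` over the sizes in `Icc a m`.
`cross_compl'`: complements exchange `t` and `s` (compare `cross_compl` in `Pool/Agent/H23/TSOdd.lean`); `mTS_compl`: `m(n,t,s) = m(n,s,t)`.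
-/

set_option autoImplicit false

namespace Pool.Agent.H30.KF

open Finset Pool.Agent.H23.TS

/-- sets without the last element and with at least `b` elements -/
private def ball (m b : ℕ) : Finset (Finset (Fin (m + 1))) :=
  univ.filter (fun A => Fin.last m ∉ A ∧ b ≤ A.card)

private theorem mem_ball (m b : ℕ) (A : Finset (Fin (m + 1))) :
    A ∈ ball m b ↔ Fin.last m ∉ A ∧ b ≤ A.card := by
  unfold ball
  rw [mem_filter]
  exact ⟨fun h => h.2, fun h => ⟨mem_univ _, h⟩⟩

private theorem sub_erase (m : ℕ) (A : Finset (Fin (m + 1))) :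
    Fin.last m ∉ A ↔ A ⊆ univ.erase (Fin.last m) := by
  constructor
  · intro h x hx
    exact mem_erase.2 ⟨fun h2 => h (h2 ▸ hx), mem_univ _⟩
  · intro h h2
    exact (mem_erase.1 (h h2)).1 rfl

private theorem card_er (m : ℕ) : (univ.erase (Fin.last m) : Finset (Fin (m + 1))).card = m := by
  rw [card_erase_of_mem (mem_univ _), card_univ, Fintype.card_fin]
  rfl

private theorem card_ball (m b : ℕ) : (ball m b).card = ∑ i ∈ Icc b m, m.choose i := by
  have hmap : ∀ A ∈ ball m b, A.card ∈ Icc b m := by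
    intro A hA
    rw [mem_ball] at hA
    have h1 := card_le_card ((sub_erase m A).1 hA.1)
    rw [card_er] at h1
    exact mem_Icc.2 ⟨hA.2, h1⟩
  rw [card_eq_sum_card_fiberwise hmap]
  refine sum_congr rfl fun i hi => ?_
  rw [mem_Icc] at hi
  have h1 : (ball m b).filter (fun A => A.card = i) = powersetCard i (univ.erase (Fin.last m)) := by
    ext A
    rw [mem_filter, mem_ball, mem_powersetCard, sub_erase]
    constructor
    · rintro ⟨⟨h1, -⟩, h2⟩
      exact ⟨h1, h2⟩
    · rintro ⟨h1, h2⟩
      exact ⟨⟨h1, by omega⟩, h2⟩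
  rw [h1, card_powersetCard, card_er]

theorem con (m t a : ℕ) (ha : m + t = 2 * a + 1) : ∃ F G : Finset (Finset (Fin (m + 1))),
    CrossTS (m + 1) t 1 F G ∧ F.card = ∑ i ∈ Icc (a + 1) m, m.choose i ∧
      G.card = ∑ i ∈ Icc a m, m.choose i := by
  refine ⟨ball m (a + 1), ball m a, ?_, card_ball m (a + 1), card_ball m a⟩
  intro A hA B hB
  rw [mem_ball] at hA hB
  have h1 : (A ∪ B).card ≤ m := by
    have h2 := card_le_card (union_subset ((sub_erase m A).1 hA.1) ((sub_erase m B).1 hB.1))
    rwa [card_er] at h2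
  have h3 := card_union_add_card_inter A B
  exact ⟨by omega, by omega⟩

private theorem cc (n t s : ℕ) (F G : Finset (Finset (Fin n))) (h : CrossTS n t s F G) :
    CrossTS n s t (F.image compl) (G.image compl) := by
  intro A hA B hB
  rw [mem_image] at hA hB
  obtain ⟨A', hA', rfl⟩ := hA
  obtain ⟨B', hB', rfl⟩ := hB
  obtain ⟨h1, h2⟩ := h A' hA' B' hB'
  have e1 : A'ᶜ ∩ B'ᶜ = (A' ∪ B')ᶜ := by rw [compl_union]
  have e2 : A'ᶜ ∪ B'ᶜ = (A' ∩ B')ᶜ := by rw [compl_inter]
  rw [e1, e2, card_compl, card_compl, Fintype.card_fin]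
  have h3 : (A' ∩ B').card ≤ n := by simpa using card_le_univ (A' ∩ B')
  constructor <;> omega

theorem cross_compl' (n t s : ℕ) (F G : Finset (Finset (Fin n))) (h : CrossTS n t s F G) :
    ∃ F' G' : Finset (Finset (Fin n)), CrossTS n s t F' G' ∧ F'.card = F.card ∧ G'.card = G.card :=
  ⟨F.image compl, G.image compl, cc n t s F G h, card_image_of_injective _ compl_injective,
    card_image_of_injective _ compl_injective⟩

private theorem mTS_compl_le (n t s : ℕ) : mTS n t s ≤ mTS n s t := by
  obtain ⟨F, hF, hc⟩ := mTS_attained n t s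
  rw [← hc, ← card_image_of_injective F compl_injective]
  exact le_mTS _ (cc n t s F F hF)

theorem mTS_compl (n t s : ℕ) : mTS n t s = mTS n s t :=
  le_antisymm (mTS_compl_le n t s) (mTS_compl_le n s t)

end Pool.Agent.H30.KF
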