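import Pool.Agent.H30.KF.Defs

/-!
# [H30 KF Har] the inequality of Harris and Kleitman for an upper set and a lower set of subsets of `range m`

The complement `U' = (range m).powerset \ U` is a lower set (in `Finset ℕ`), `W` also.  Mathlib:
`IsLowerSet.le_card_inter_finset'` (`Mathlib/Combinatorics/SetFamily/HarrisKleitman.lean`, for lower sets of subsets of a finite set
`s = range m`): `|U'| * |W| ≤ 2 ^ m * |U' ∩ W|`.  `|U'| = 2 ^ m - |U|` and `|U' ∩ W| = |W| - |U ∩ W|`.
-/

set_option autoImplicit false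

namespace Pool.Agent.H30.KF

open Finset

theorem har (m : ℕ) (U W : Finset (Finset ℕ)) (hU : On m U) (hW : On m W)
    (hUu : ∀ A ∈ U, ∀ B, B ⊆ range m → A ⊆ B → B ∈ U) (hWl : ∀ A ∈ W, ∀ B, B ⊆ A → B ∈ W) :
    2 ^ m * (U ∩ W).card ≤ U.card * W.card := by
  classical
  set U' := (range m).powerset \ U with hU'
  have h1 : IsLowerSet (U' : Set (Finset ℕ)) := by
    intro A B hBA hA
    rw [mem_coe, hU', mem_sdiff, mem_powerset] at hA ⊢
    refine ⟨hBA.trans hA.1, fun hB => hA.2 (hUu B hB A hA.1 hBA)⟩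
  have h2 : IsLowerSet (W : Set (Finset ℕ)) := by
    intro A B hBA hA
    rw [mem_coe] at hA ⊢
    exact hWl A hA B hBA
  have h3 := h1.le_card_inter_finset' h2 (s := range m)
    (fun A hA => by
      rw [hU', mem_sdiff, mem_powerset] at hA
      exact hA.1)
    (fun A hA => hW A hA)
  rw [card_range] at h3
  have hsub : U ⊆ (range m).powerset := fun A hA => mem_powerset.2 (hU A hA)
  have h4 : U'.card + U.card = 2 ^ m := by
    rw [hU', card_sdiff_add_card_eq_card hsub, card_powerset, card_range]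
  have h5 : (U' ∩ W).card + (U ∩ W).card = W.card := by
    have e : U' ∩ W = W \ U := by
      ext A
      rw [mem_inter, hU', mem_sdiff, mem_sdiff, mem_powerset]
      constructor
      · rintro ⟨⟨-, h⟩, h'⟩
        exact ⟨h', h⟩
      · rintro ⟨h', h⟩
        exact ⟨⟨hW A h', h⟩, h'⟩
    rw [e, inter_comm U W]
    exact card_sdiff_add_card_inter W U
  have h6 : (U'.card + U.card) * W.card = 2 ^ m * ((U' ∩ W).card + (U ∩ W).card) := by
    rw [h4, h5]
  nlinarith [h3, h6]

end Pool.Agent.H30.KF
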