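import Pool.Agent.H30.KF.Shf
import Pool.Agent.H30.KF.Har

/-!
# [H30 KF Fra] Frankl's theorem: `m(m + 1, t, 1) ≤ m(m, t)`

By `exists_shifted` `F` is shifted.  `F₀` = the members without `m`, `F₁` = the sets `A.erase m`, `m ∈ A ∈ F`.  `H = F₀ ∪ F₁`,
`D = F₀ ∩ F₁`, families of subsets of `range m`; `F.card = F₀.card + F₁.card = H.card + D.card`.
`H` is `t`-intersecting: `F₀`, `F₀` and `F₀`, `F₁` clear; for `m ∈ A, B ∈ F`: `|A ∪ B| ≤ m`, so there is `i ∈ range (m + 1)`,
`i ∉ A ∪ B`, `i < m`, and `insert i (A.erase m) ∈ F` meets `B` in `A.erase m ∩ B.erase m`.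
If `C ∈ D` and `B ∈ H` then `C ∪ B ≠ range m`: `C ∈ F` and `insert m C ∈ F`; `B ∈ F` or `insert m B ∈ F`; in both cases a union of two
members of `F` is `insert m (C ∪ B)`, it has at most `m` elements.
`U` = the `A ⊆ range m` which contain a member of `H`; `W` = the subsets of the members of `H`; `W'` = the `A ⊆ range m` with
`range m \ A ∉ W`, a lower set, `W.card + W'.card = 2 ^ m`.  `H ⊆ U ∩ W`, `D ⊆ U ∩ W'`.  `U` is `t`-intersecting, so `U.card ≤ K`.
`har` twice: `2 ^ m * (H.card + D.card) ≤ U.card * (W.card + W'.card) = 2 ^ m * U.card`.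
-/

set_option autoImplicit false

namespace Pool.Agent.H30.KF

open Finset

private theorem card_split (F : Finset (Finset ℕ)) (k : ℕ) :
    F.card = (F.filter (fun A => k ∉ A)).card + ((F.filter (fun A => k ∈ A)).image
      (fun A => A.erase k)).card := by
  classical
  rw [card_image_of_injOn]
  · rw [add_comm]
    exact (card_filter_add_card_filter_not (fun A => k ∈ A)).symm
  · intro A hA B hB h
    rw [mem_coe, mem_filter] at hA hB
    have h' : A.erase k = B.erase k := h
    rw [← insert_erase hA.2, ← insert_erase hB.2, h']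

/-- the part with Harris and Kleitman -/
private theorem two (m t K : ℕ) (hK : ∀ H : Finset (Finset ℕ), On m H →
    (∀ A ∈ H, ∀ B ∈ H, t ≤ (A ∩ B).card) → H.card ≤ K) (H D : Finset (Finset ℕ)) (hH : On m H)
    (hT : ∀ A ∈ H, ∀ B ∈ H, t ≤ (A ∩ B).card) (hDH : D ⊆ H)
    (hD : ∀ C ∈ D, ∀ B ∈ H, C ∪ B ≠ range m) : H.card + D.card ≤ K := by
  classical
  set U := (range m).powerset.filter (fun A => ∃ B ∈ H, B ⊆ A) with hUdef
  set W := (range m).powerset.filter (fun A => ∃ B ∈ H, A ⊆ B) with hWdef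
  set W' := (range m).powerset.filter (fun A => range m \ A ∉ W) with hW'def
  have mU : ∀ A, A ∈ U ↔ A ⊆ range m ∧ ∃ B ∈ H, B ⊆ A := fun A => by
    rw [hUdef, mem_filter, mem_powerset]
  have mW : ∀ A, A ∈ W ↔ A ⊆ range m ∧ ∃ B ∈ H, A ⊆ B := fun A => by
    rw [hWdef, mem_filter, mem_powerset]
  have mW' : ∀ A, A ∈ W' ↔ A ⊆ range m ∧ range m \ A ∉ W := fun A => by
    rw [hW'def, mem_filter, mem_powerset]
  clear_value U W W'
  have oU : On m U := fun A hA => ((mU A).1 hA).1
  have oW : On m W := fun A hA => ((mW A).1 hA).1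
  have oW' : On m W' := fun A hA => ((mW' A).1 hA).1
  have hUu : ∀ A ∈ U, ∀ B, B ⊆ range m → A ⊆ B → B ∈ U := by
    intro A hA B hB hAB
    obtain ⟨-, C, hC, hCA⟩ := (mU A).1 hA
    exact (mU B).2 ⟨hB, C, hC, hCA.trans hAB⟩
  have hWl : ∀ A ∈ W, ∀ B, B ⊆ A → B ∈ W := by
    intro A hA B hBA
    obtain ⟨h1, C, hC, hAC⟩ := (mW A).1 hA
    exact (mW B).2 ⟨hBA.trans h1, C, hC, hBA.trans hAC⟩
  have hW'l : ∀ A ∈ W', ∀ B, B ⊆ A → B ∈ W' := by
    intro A hA B hBA
    obtain ⟨h1, h2⟩ := (mW' A).1 hA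
    refine (mW' B).2 ⟨hBA.trans h1, fun h3 => h2 ?_⟩
    exact hWl _ h3 _ (sdiff_subset_sdiff (Subset.refl _) hBA)
  have hcard : W.card + W'.card = 2 ^ m := by
    have h1 : W'.card = ((range m).powerset \ W).card := by
      refine card_bij (fun A _ => range m \ A) ?_ ?_ ?_
      · intro A hA
        rw [mem_sdiff, mem_powerset]
        exact ⟨sdiff_subset, ((mW' A).1 hA).2⟩
      · intro A hA B hB h
        have h2 : range m \ (range m \ A) = range m \ (range m \ B) := by rw [h]
        rwa [Finset.sdiff_sdiff_eq_self (oW' A hA), Finset.sdiff_sdiff_eq_self (oW' B hB)] at h2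
      · intro B hB
        rw [mem_sdiff, mem_powerset] at hB
        refine ⟨range m \ B, (mW' _).2 ⟨sdiff_subset, ?_⟩, Finset.sdiff_sdiff_eq_self hB.1⟩
        rw [Finset.sdiff_sdiff_eq_self hB.1]
        exact hB.2
    have h2 : W ⊆ (range m).powerset := fun A hA => mem_powerset.2 (oW A hA)
    have h3 := card_sdiff_add_card_eq_card h2
    rw [card_powerset, card_range] at h3
    omega
  have hHU : H ⊆ U := fun A hA => (mU A).2 ⟨hH A hA, A, hA, Subset.refl _⟩
  have hHW : H ⊆ W := fun A hA => (mW A).2 ⟨hH A hA, A, hA, Subset.refl _⟩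
  have hDW' : D ⊆ W' := by
    intro C hC
    refine (mW' C).2 ⟨hH C (hDH hC), fun h1 => ?_⟩
    obtain ⟨-, B, hB, hCB⟩ := (mW _).1 h1
    apply hD C hC B hB
    apply Subset.antisymm (union_subset (hH C (hDH hC)) (hH B hB))
    intro x hx
    by_cases hxC : x ∈ C
    · exact mem_union_left _ hxC
    · exact mem_union_right _ (hCB (mem_sdiff.2 ⟨hx, hxC⟩))
  have hUK : U.card ≤ K := by
    apply hK U oU
    intro A hA B hB
    obtain ⟨-, A', hA', hA2⟩ := (mU A).1 hA
    obtain ⟨-, B', hB', hB2⟩ := (mU B).1 hB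
    exact (hT A' hA' B' hB').trans (card_le_card (inter_subset_inter hA2 hB2))
  have e1 := har m U W oU oW hUu hWl
  have e2 := har m U W' oU oW' hUu hW'l
  have e3 : H.card ≤ (U ∩ W).card := card_le_card (subset_inter hHU hHW)
  have e4 : D.card ≤ (U ∩ W').card := card_le_card (subset_inter (hDH.trans hHU) hDW')
  have e5 : 2 ^ m * (H.card + D.card) ≤ 2 ^ m * K := by
    calc 2 ^ m * (H.card + D.card) ≤ 2 ^ m * ((U ∩ W).card + (U ∩ W').card) :=
          Nat.mul_le_mul_left _ (Nat.add_le_add e3 e4)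
      _ = 2 ^ m * (U ∩ W).card + 2 ^ m * (U ∩ W').card := by ring
      _ ≤ U.card * W.card + U.card * W'.card := Nat.add_le_add e1 e2
      _ = 2 ^ m * U.card := by rw [← mul_add, hcard, mul_comm]
      _ ≤ 2 ^ m * K := Nat.mul_le_mul_left _ hUK
  exact Nat.le_of_mul_le_mul_left e5 (by positivity)

theorem fra (m t K : ℕ) (hK : ∀ H : Finset (Finset ℕ), On m H →
    (∀ A ∈ H, ∀ B ∈ H, t ≤ (A ∩ B).card) → H.card ≤ K)
    (F : Finset (Finset ℕ)) (hF : On (m + 1) F) (hI : Inv t m F) : F.card ≤ K := by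
  classical
  obtain ⟨G, hG, hI, hS, hc⟩ := exists_shifted (m + 1) t m F hF hI
  rw [← hc, card_split G m]
  set F₀ := G.filter (fun A => m ∉ A) with hF₀
  set F₁ := (G.filter (fun A => m ∈ A)).image (fun A => A.erase m) with hF₁
  have m0 : ∀ A ∈ F₀, A ∈ G ∧ m ∉ A := fun A hA => mem_filter.1 hA
  have m1 : ∀ A ∈ F₁, ∃ A' ∈ G, m ∈ A' ∧ A'.erase m = A := by
    intro A hA
    rw [hF₁, mem_image] at hA
    obtain ⟨A', hA', h⟩ := hA
    rw [mem_filter] at hA'
    exact ⟨A', hA'.1, hA'.2, h⟩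
  clear_value F₀ F₁
  have o0 : On m F₀ := by
    intro A hA x hx
    have h1 := mem_range.1 (hG A (m0 A hA).1 hx)
    have h2 : x ≠ m := fun h => (m0 A hA).2 (h ▸ hx)
    exact mem_range.2 (by omega)
  have o1 : On m F₁ := by
    intro A hA x hx
    obtain ⟨A', hA', -, rfl⟩ := m1 A hA
    rw [mem_erase] at hx
    have h1 := mem_range.1 (hG A' hA' hx.2)
    exact mem_range.2 (by omega)
  have oH : On m (F₀ ∪ F₁) := by
    intro A hA
    rcases mem_union.1 hA with h | h
    · exact o0 A h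
    · exact o1 A h
  have c01 : ∀ A ∈ F₀, ∀ B ∈ F₁, t ≤ (A ∩ B).card := by
    intro A hA B hB
    obtain ⟨B', hB', -, rfl⟩ := m1 B hB
    refine (hI A (m0 A hA).1 B' hB').1.trans (card_le_card ?_)
    intro x hx
    rw [mem_inter] at hx
    rw [mem_inter, mem_erase]
    exact ⟨hx.1, fun h => (m0 A hA).2 (h ▸ hx.1), hx.2⟩
  have c11 : ∀ A ∈ F₁, ∀ B ∈ F₁, t ≤ (A ∩ B).card := by
    intro A hA B hB
    obtain ⟨A', hA', hmA, rfl⟩ := m1 A hA
    obtain ⟨B', hB', hmB, rfl⟩ := m1 B hB
    obtain ⟨i, hi, hiAB⟩ : ∃ i ∈ range (m + 1), i ∉ A' ∪ B' := by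
      by_contra hno
      push Not at hno
      have h1 := card_le_card (show range (m + 1) ⊆ A' ∪ B' from hno)
      rw [card_range] at h1
      have h2 := (hI A' hA' B' hB').2
      omega
    rw [mem_union, not_or] at hiAB
    have him : i < m := by
      have h1 := mem_range.1 hi
      have h2 : i ≠ m := fun h => hiAB.1 (h ▸ hmA)
      omega
    have h1 := hS A' hA' i m him hmA hiAB.1
    refine (hI _ h1 B' hB').1.trans (card_le_card ?_)
    intro x hx
    rw [mem_inter, mem_insert, mem_erase] at hx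
    rw [mem_inter, mem_erase, mem_erase]
    obtain ⟨hx | hx, hx2⟩ := hx
    · exact absurd (hx ▸ hx2) hiAB.2
    · exact ⟨hx, hx.1, hx2⟩
  have hT : ∀ A ∈ F₀ ∪ F₁, ∀ B ∈ F₀ ∪ F₁, t ≤ (A ∩ B).card := by
    intro A hA B hB
    rcases mem_union.1 hA with hA | hA <;> rcases mem_union.1 hB with hB | hB
    · exact (hI A (m0 A hA).1 B (m0 B hB).1).1
    · exact c01 A hA B hB
    · rw [inter_comm]
      exact c01 B hB A hA
    · exact c11 A hA B hB
  have h1 : F₀.card + F₁.card = (F₀ ∪ F₁).card + (F₀ ∩ F₁).card :=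
    (card_union_add_card_inter F₀ F₁).symm
  rw [h1]
  apply two m t K hK (F₀ ∪ F₁) (F₀ ∩ F₁) oH hT (inter_subset_left.trans subset_union_left)
  intro C hC B hB hCB
  rw [mem_inter] at hC
  obtain ⟨C', hC', hmC', hCe⟩ := m1 C hC.2
  have hCG := (m0 C hC.1).1
  have hmC := (m0 C hC.1).2
  rcases mem_union.1 hB with hB | hB
  · have h2 := (hI C' hC' B (m0 B hB).1).2
    have h3 : range (m + 1) ⊆ C' ∪ B := by
      intro x hx
      by_cases hxm : x = m
      · rw [hxm]
        exact mem_union_left _ hmC'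
      · have hx' : x ∈ C ∪ B := by
          rw [hCB]
          have := mem_range.1 hx
          exact mem_range.2 (by omega)
        rcases mem_union.1 hx' with h | h
        · rw [← hCe] at h
          exact mem_union_left _ (mem_of_mem_erase h)
        · exact mem_union_right _ h
    have h4 := card_le_card h3
    rw [card_range] at h4
    omega
  · obtain ⟨B', hB', hmB', hBe⟩ := m1 B hB
    have h2 := (hI C hCG B' hB').2
    have h3 : range (m + 1) ⊆ C ∪ B' := by
      intro x hx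
      by_cases hxm : x = m
      · rw [hxm]
        exact mem_union_right _ hmB'
      · have hx' : x ∈ C ∪ B := by
          rw [hCB]
          have := mem_range.1 hx
          exact mem_range.2 (by omega)
        rcases mem_union.1 hx' with h | h
        · exact mem_union_left _ h
        · rw [← hBe] at h
          exact mem_union_right _ (mem_of_mem_erase h)
    have h4 := card_le_card h3
    rw [card_range] at h4
    omega

end Pool.Agent.H30.KF
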