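import Mathlib

/-!
# [H30 KF Num] the numerical inequality

Notation: `M = 2 N + r`, `a = N + r + 1`, `S = ∑_(i ≥ a) C(M, i)`, `x = C(M, a)` (`= 0` only if `N = 0`), `y = C(M, a - 1)`.
`∑_(i ≥ a + 1) C(M + 1, i) = 2 S - x`, `∑_(i ≥ a) C(M + 1, i) = 2 S + y` (Pascal).  So we need `(2 S) ^ 2 < (2 S - x) * (2 S + y)`, that is
`x * y < 2 S (y - x)`.
(1) `a * x = N * y` (`Nat.choose_succ_right_eq` : `C(M, a) * a = C(M, a - 1) * (M - a + 1)`, `M - a + 1 = N`), so
`N (y - x) = (a - N) x = (r + 1) x`.  So it is enough that `a * x < 2 S (r + 1)` (multiply by `x`, then `a x = N y`, divide by `N`).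
(2) `(i + 1) C(M, i + 1) = (M - i) C(M, i)`, so `∑_(i ≥ a) (i C(M, i) - (i + 1) C(M, i + 1)) = a x` (telescoping) and
`i - (M - i) = r + 2 + 2 (i - a)`: `a x = (r + 2) S + 2 M'`, `M' = ∑_(i ≥ a) (i - a) C(M, i)`.
So it is enough that `2 M' < r S`.
(3) `M' = ∑_(i ≥ a) (i + 1 - a) C(M, i + 1)` (shift of the index) and `(a + 1) C(M, i + 1) ≤ (i + 1) C(M, i + 1) = (M - i) C(M, i) ≤ (M - a) C(M, i)`,
so `(a + 1) M' ≤ (M - a) (M' + S)`, i.e. `(r + 3) M' ≤ (N - 1) S` (`M - a = N - 1`, `a + 1 - (N - 1) = r + 3`).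
(4) `h` and parity: `2 N ≤ (r + 2) ^ 2 - (r + 2) - 2 = (r + 3) r`, so `2 (N - 1) < (r + 3) r`, and `2 (r + 3) M' ≤ 2 (N - 1) S < (r + 3) r S` (`S > 0`).
Work in `ℤ` or `ℚ`; `range`-sums `∑ j ∈ range N, C(M, a + j)` are more convenient than `Icc` (`Finset.sum_Icc..`, `Finset.sum_bij`).
-/

set_option autoImplicit false

namespace Pool.Agent.H30.KF

open Finset

private theorem tele (f : ℕ → ℤ) (N : ℕ) : ∑ j ∈ range N, f (j + 1) = ∑ j ∈ range N, f j - f 0 + f N := by
  have h1 := sum_range_succ f N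
  have h2 := sum_range_succ' f N
  linarith

private theorem core (r N : ℕ) (hN : 1 ≤ N) (h : 2 * N + r + 2 < (r + 2) ^ 2)
    (c : ℕ → ℤ) (y : ℤ) (hc : ∀ j, 0 ≤ c j) (hc0 : 0 < c 0) (hcN : c N = 0)
    (hrec : ∀ j < N, c (j + 1) * ((N : ℤ) + r + 1 + j + 1) = c j * ((N : ℤ) - 1 - j))
    (hy : c 0 * ((N : ℤ) + r + 1) = y * N) :
    (2 * ∑ j ∈ range N, c j) ^ 2 <
      (2 * ∑ j ∈ range N, c j - c 0) * (2 * ∑ j ∈ range N, c j + y) := by
  set S := ∑ j ∈ range N, c j with hS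
  set M := ∑ j ∈ range N, (j : ℤ) * c j with hM
  have hSpos : 0 < S := by
    have h1 : c 0 ≤ S := single_le_sum (fun j _ => hc j) (mem_range.2 (by omega : 0 < N))
    linarith
  -- (2)
  have e2 : ((N : ℤ) + r + 1) * c 0 = (r + 2) * S + 2 * M := by
    have h1 := tele (fun j => ((N : ℤ) + r + 1 + j) * c j) N
    have h2 : ∑ j ∈ range N, ((N : ℤ) + r + 1 + ((j + 1 : ℕ) : ℤ)) * c (j + 1) =
        ∑ j ∈ range N, ((N : ℤ) - 1 - j) * c j := by
      refine sum_congr rfl fun j hj => ?_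
      have := hrec j (mem_range.1 hj)
      push_cast
      linarith
    have h3 : ∑ j ∈ range N, ((N : ℤ) + r + 1 + j) * c j - ∑ j ∈ range N, ((N : ℤ) - 1 - j) * c j =
        (r + 2) * S + 2 * M := by
      rw [hS, hM, mul_sum, mul_sum, ← sum_add_distrib, ← sum_sub_distrib]
      refine sum_congr rfl fun j _ => ?_
      ring
    rw [h2, hcN] at h1
    push_cast at h1
    linarith
  -- (3)
  have e3 : ((r : ℤ) + 3) * M ≤ ((N : ℤ) - 1) * S := by
    have h1 := tele (fun j => (j : ℤ) * c j) N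
    have h2 : ∑ j ∈ range N, ((N : ℤ) + r + 2) * ((((j + 1 : ℕ) : ℤ)) * c (j + 1)) ≤
        ∑ j ∈ range N, ((N : ℤ) - 1) * (((j : ℤ) + 1) * c j) := by
      refine sum_le_sum fun j hj => ?_
      have h3 := hrec j (mem_range.1 hj)
      have h4 := hc j
      have h5 := hc (j + 1)
      have hj0 : (0 : ℤ) ≤ j := Int.natCast_nonneg j
      have h6 : ((N : ℤ) + r + 2) * c (j + 1) ≤ ((N : ℤ) - 1) * c j := by
        have h7 : (0 : ℤ) ≤ j * c (j + 1) := mul_nonneg hj0 h5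
        have h8 : (0 : ℤ) ≤ j * c j := mul_nonneg hj0 h4
        linarith
      have h9 := mul_le_mul_of_nonneg_left h6 (by linarith : (0 : ℤ) ≤ (j : ℤ) + 1)
      push_cast
      linarith
    rw [hcN] at h1
    rw [← mul_sum, ← mul_sum, h1] at h2
    have h3 : ∑ j ∈ range N, ((j : ℤ) + 1) * c j = M + S := by
      rw [hS, hM, ← sum_add_distrib]
      refine sum_congr rfl fun j _ => ?_
      ring
    rw [h3] at h2
    push_cast at h2
    linarith
  -- (4)
  have e4 : 2 * M < r * S := by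
    have h1 : 2 * ((N : ℤ) - 1) < (r + 3) * r := by
      have : (2 * N + r + 2 : ℤ) < (r + 2) ^ 2 := by exact_mod_cast h
      linarith
    have h2 : 2 * (((r : ℤ) + 3) * M) < ((r : ℤ) + 3) * (r * S) := by
      have h3 := mul_lt_mul_of_pos_right h1 hSpos
      linarith
    have h3 : ((r : ℤ) + 3) * (2 * M) < ((r : ℤ) + 3) * (r * S) := by linarith
    exact lt_of_mul_lt_mul_left h3 (by positivity)
  have e5 : c 0 * ((N : ℤ) + r + 1) < 2 * S * (r + 1) := by linarith
  -- (5)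
  have hNpos : (0 : ℤ) < N := by exact_mod_cast hN
  have e6 : (N : ℤ) * (y - c 0) = (r + 1) * c 0 := by linarith
  have e7 : (N : ℤ) * (c 0 * y) < N * (2 * S * (y - c 0)) := by
    have h1 : (N : ℤ) * (c 0 * y) = c 0 * (c 0 * ((N : ℤ) + r + 1)) := by rw [hy]; ring
    have h2 : (N : ℤ) * (2 * S * (y - c 0)) = c 0 * (2 * S * (r + 1)) := by
      have : (N : ℤ) * (2 * S * (y - c 0)) = 2 * S * ((N : ℤ) * (y - c 0)) := by ring
      rw [this, e6]
      ring
    rw [h1, h2]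
    exact mul_lt_mul_of_pos_left e5 hc0
  have e8 := lt_of_mul_lt_mul_left e7 hNpos.le
  linarith [show (2 * S) ^ 2 = (2 * S - c 0) * (2 * S + y) - (2 * S * (y - c 0) - c 0 * y) by ring]

private theorem sum_Icc_range (f : ℕ → ℕ) (a N : ℕ) (b : ℕ) (hb : b + 1 = a + N) :
    ∑ i ∈ Icc a b, f i = ∑ j ∈ range N, f (a + j) := by
  have h1 : Icc a b = Ico a (a + N) := by
    ext i
    rw [mem_Icc, mem_Ico]
    omega
  rw [h1, sum_Ico_eq_sum_range, Nat.add_sub_cancel_left]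

theorem num (r N : ℕ) (hr : 1 ≤ r) (hN : 1 ≤ N) (h : 2 * N + r + 2 < (r + 2) ^ 2) :
    (2 * ∑ i ∈ Icc (N + r + 1) (2 * N + r), (2 * N + r).choose i) ^ 2 <
      (∑ i ∈ Icc (N + r + 2) (2 * N + r + 1), (2 * N + r + 1).choose i) *
        ∑ i ∈ Icc (N + r + 1) (2 * N + r + 1), (2 * N + r + 1).choose i := by
  rw [sum_Icc_range _ (N + r + 1) N (2 * N + r) (by omega),
    sum_Icc_range _ (N + r + 2) N (2 * N + r + 1) (by omega),
    sum_Icc_range _ (N + r + 1) (N + 1) (2 * N + r + 1) (by omega)]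
  set c : ℕ → ℤ := fun j => ((2 * N + r).choose (N + r + 1 + j) : ℤ) with hcdef
  have hcN : c N = 0 := by
    rw [hcdef]
    simp only
    rw [Nat.choose_eq_zero_of_lt (by omega)]
    rfl
  have hcr : ∀ j < N, c (j + 1) * ((N : ℤ) + r + 1 + j + 1) = c j * ((N : ℤ) - 1 - j) := by
    intro j hj
    have h1 := Nat.choose_succ_right_eq (2 * N + r) (N + r + 1 + j)
    have h2 : (((2 * N + r) - (N + r + 1 + j) : ℕ) : ℤ) = (N : ℤ) - 1 - j := by
      rw [Nat.cast_sub (by omega)]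
      push_cast
      ring
    have h3 := congrArg (fun z : ℕ => (z : ℤ)) h1
    rw [Nat.cast_mul, Nat.cast_mul, h2] at h3
    push_cast at h3
    rw [hcdef]
    simp only
    rw [show N + r + 1 + (j + 1) = N + r + 1 + j + 1 by ring]
    linarith
  have hy : c 0 * ((N : ℤ) + r + 1) = ((2 * N + r).choose (N + r) : ℤ) * N := by
    have h1 := Nat.choose_succ_right_eq (2 * N + r) (N + r)
    have h2 : (2 * N + r) - (N + r) = N := by omega
    rw [h2] at h1
    have h3 := congrArg (fun z : ℕ => (z : ℤ)) h1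
    push_cast at h3
    rw [hcdef]
    simp only
    rw [add_zero]
    linarith
  have hc0 : 0 < c 0 := by
    rw [hcdef]
    simp only
    rw [add_zero]
    exact_mod_cast Nat.choose_pos (by omega)
  have hmain := core r N hN h c ((2 * N + r).choose (N + r) : ℤ) (fun j => Int.natCast_nonneg _) hc0
    hcN hcr hy
  have g1 : ((∑ j ∈ range N, (2 * N + r + 1).choose (N + r + 2 + j) : ℕ) : ℤ) =
      2 * ∑ j ∈ range N, c j - c 0 := by
    have h1 := tele c N
    rw [hcN] at h1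
    have h2 : ((∑ j ∈ range N, (2 * N + r + 1).choose (N + r + 2 + j) : ℕ) : ℤ) =
        ∑ j ∈ range N, c j + ∑ j ∈ range N, c (j + 1) := by
      rw [← sum_add_distrib, Nat.cast_sum]
      refine sum_congr rfl fun j _ => ?_
      have h3 := Nat.choose_succ_succ (2 * N + r) (N + r + 1 + j)
      rw [hcdef]
      simp only
      rw [show N + r + 2 + j = (N + r + 1 + j) + 1 by ring,
        show N + r + 1 + (j + 1) = (N + r + 1 + j) + 1 by ring]
      exact_mod_cast h3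
    rw [h2, h1]
    ring
  have g2 : ((∑ j ∈ range (N + 1), (2 * N + r + 1).choose (N + r + 1 + j) : ℕ) : ℤ) =
      2 * ∑ j ∈ range N, c j + ((2 * N + r).choose (N + r) : ℤ) := by
    rw [sum_range_succ']
    have h3 : (2 * N + r + 1).choose (N + r + 1 + 0) =
        (2 * N + r).choose (N + r) + (2 * N + r).choose (N + r + 1) :=
      Nat.choose_succ_succ (2 * N + r) (N + r)
    have h4 : ∑ j ∈ range N, (2 * N + r + 1).choose (N + r + 1 + (j + 1)) =
        ∑ j ∈ range N, (2 * N + r + 1).choose (N + r + 2 + j) := by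
      refine sum_congr rfl fun j _ => ?_
      congr 1
      ring
    rw [h3, h4, Nat.cast_add, g1]
    have h5 : c 0 = ((2 * N + r).choose (N + r + 1) : ℤ) := rfl
    rw [h5]
    push_cast
    ring
  have g0 : ((∑ j ∈ range N, (2 * N + r).choose (N + r + 1 + j) : ℕ) : ℤ) = ∑ j ∈ range N, c j := by
    rw [Nat.cast_sum]
  rw [← Nat.cast_lt (α := ℤ), Nat.cast_mul, g1, g2, Nat.cast_pow, Nat.cast_mul, g0]
  exact_mod_cast hmain

end Pool.Agent.H30.KF
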