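import Pool.Agent.H30.KF.KaO
import Pool.Agent.H30.KF.Fra
import Pool.Agent.H30.KF.Num
import Pool.Agent.H30.KF.Cns

/-!
# [H30 KF Asm] assembly

`mTS_le`: a `(t,1)`-family of subsets of `Fin (m + 1)` is transferred to `Finset ℕ` (`Finset.map Fin.valEmbedding`);
`fra` with `K` of `katO`.
-/

set_option autoImplicit false

namespace Pool.Agent.H30.KF

open Finset Pool.Agent.H23.TS

theorem mTS_le_one (M t a : ℕ) (ht : 1 ≤ t) (ha : M + t = 2 * a) :
    mTS (M + 2) t 1 ≤ 2 * ∑ i ∈ Icc a M, M.choose i := by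
  classical
  obtain ⟨F, hF, hc⟩ := mTS_attained (M + 2) t 1
  rw [← hc]
  let e : Finset (Fin (M + 2)) → Finset ℕ := fun A => A.map Fin.valEmbedding
  have he : Function.Injective e := map_injective Fin.valEmbedding
  rw [← card_image_of_injective F he]
  apply fra (M + 1) t _ (fun H hH hT => katO M t a ht ha H hH hT)
  · intro X hX
    rw [mem_image] at hX
    obtain ⟨A, -, rfl⟩ := hX
    intro x hx
    rw [mem_map] at hx
    obtain ⟨y, -, rfl⟩ := hx
    exact mem_range.2 y.2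
  · intro X hX Y hY
    rw [mem_image] at hX hY
    obtain ⟨A, hA, rfl⟩ := hX
    obtain ⟨B, hB, rfl⟩ := hY
    obtain ⟨h1, h2⟩ := hF A hA B hB
    show t ≤ (A.map Fin.valEmbedding ∩ B.map Fin.valEmbedding).card ∧
      (A.map Fin.valEmbedding ∪ B.map Fin.valEmbedding).card ≤ M + 1
    rw [← map_inter, ← map_union, card_map, card_map]
    exact ⟨h1, by omega⟩

theorem s_one (t n : ℕ) (h1 : t < n) (h2 : n < t ^ 2) (h3 : n % 2 = t % 2) :
    ∃ F G : Finset (Finset (Fin n)), CrossTS n t 1 F G ∧ mTS n t 1 ^ 2 < F.card * G.card := by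
  have ht3 : 3 ≤ t := by
    by_contra hcon
    have : t = 0 ∨ t = 1 ∨ t = 2 := by omega
    rcases this with rfl | rfl | rfl <;> omega
  obtain ⟨r, rfl⟩ : ∃ r, t = r + 2 := ⟨t - 2, by omega⟩
  obtain ⟨N, rfl⟩ : ∃ N, n = 2 * N + r + 2 := ⟨(n - r - 2) / 2, by omega⟩
  have hnum := num r N (by omega) (by omega) h2
  have hle := mTS_le_one (2 * N + r) (r + 2) (N + r + 1) (by omega) (by ring)
  obtain ⟨F, G, hFG, hF, hG⟩ := con (2 * N + r + 1) (r + 2) (N + r + 1) (by ring)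
  refine ⟨F, G, hFG, ?_⟩
  rw [hF, hG]
  exact lt_of_le_of_lt (Nat.pow_le_pow_left hle 2) hnum

theorem t_one (s n : ℕ) (h1 : s < n) (h2 : n < s ^ 2) (h3 : n % 2 = s % 2) :
    ∃ F G : Finset (Finset (Fin n)), CrossTS n 1 s F G ∧ mTS n 1 s ^ 2 < F.card * G.card := by
  obtain ⟨F, G, hFG, hlt⟩ := s_one s n h1 h2 h3
  obtain ⟨F', G', h4, h5, h6⟩ := cross_compl' n s 1 F G hFG
  refine ⟨F', G', h4, ?_⟩
  rw [mTS_compl, h5, h6]
  exact hlt

end Pool.Agent.H30.KF
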