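import Pool.Agent.H30.KF.Defs

/-!
# [H30 KF Bas] two cross intersecting uniform families of the same size on the line

`|A ∩ B| ≥ t` and `|A| = |B| = i`, `2 i + 1 = n + t` give `|A ∪ B| ≤ n - 1`, so `A ∪ B ≠ range n`.  So no complement
`range n \ A` is contained in a `B` (and none is equal to a `B`).  The sets `range n \ A` have `n - i ≤ i` elements (as `t ≥ 1`), so they
form together with the `B` an antichain: LYM (`Finset.lubell_yamamoto_meshalkin_inequality_sum_inv_choose` or
`.._sum_card_div_choose` in `Mathlib/Combinatorics/SetFamily/LYM.lean`, for the type `Fin n`; transfer a set `A ⊆ range n` to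
`univ.filter (fun x : Fin n => (x : ℕ) ∈ A)`) gives `𝓐.card / n.choose (n - i) + 𝓑.card / n.choose i ≤ 1` and
`n.choose (n - i) = n.choose i` (`Nat.choose_symm`).  (If `𝓐` and `𝓑` are not empty then `i ≤ n`.)
-/

set_option autoImplicit false

namespace Pool.Agent.H30.KF

open Finset

/-- transfer to `Fin n` -/
private def tr (n : ℕ) (A : Finset ℕ) : Finset (Fin n) := univ.filter (fun x : Fin n => (x : ℕ) ∈ A)

private theorem tr_map (n : ℕ) (A : Finset ℕ) (hA : A ⊆ range n) :
    (tr n A).map Fin.valEmbedding = A := by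
  ext x
  rw [mem_map]
  constructor
  · rintro ⟨y, hy, rfl⟩
    exact (mem_filter.1 hy).2
  · intro hx
    exact ⟨⟨x, mem_range.1 (hA hx)⟩, mem_filter.2 ⟨mem_univ _, hx⟩, rfl⟩

private theorem tr_card (n : ℕ) (A : Finset ℕ) (hA : A ⊆ range n) : (tr n A).card = A.card := by
  rw [← card_map Fin.valEmbedding, tr_map n A hA]

private theorem tr_inj (n : ℕ) (A B : Finset ℕ) (hA : A ⊆ range n) (hB : B ⊆ range n)
    (h : tr n A = tr n B) : A = B := by
  rw [← tr_map n A hA, h, tr_map n B hB]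

private theorem tr_sub (n : ℕ) (A B : Finset ℕ) (hA : A ⊆ range n) (h : tr n A ⊆ tr n B) :
    A ⊆ B := by
  intro x hx
  have h1 : (⟨x, mem_range.1 (hA hx)⟩ : Fin n) ∈ tr n A := mem_filter.2 ⟨mem_univ _, hx⟩
  exact (mem_filter.1 (h h1)).2

theorem base (n i t : ℕ) (ht : 1 ≤ t) (h : 2 * i + 1 = n + t) (hin : i ≤ n) (𝓐 𝓑 : Finset (Finset ℕ))
    (hA : ∀ A ∈ 𝓐, A ⊆ range n ∧ A.card = i) (hB : ∀ B ∈ 𝓑, B ⊆ range n ∧ B.card = i)
    (hc : ∀ A ∈ 𝓐, ∀ B ∈ 𝓑, t ≤ (A ∩ B).card) : 𝓐.card + 𝓑.card ≤ n.choose i := by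
  classical
  -- complements of members of `𝓐` are not contained in members of `𝓑`
  have hkey : ∀ A ∈ 𝓐, ∀ B ∈ 𝓑, ¬ (range n \ A ⊆ B) := by
    intro A hA' B hB' hsub
    have h1 := hc A hA' B hB'
    have h2 : range n ⊆ A ∪ B := by
      intro x hx
      by_cases hxA : x ∈ A
      · exact mem_union_left _ hxA
      · exact mem_union_right _ (hsub (mem_sdiff.2 ⟨hx, hxA⟩))
    have h3 := card_le_card h2
    rw [card_range] at h3
    have h4 := card_union_add_card_inter A B
    have h5 := (hA A hA').2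
    have h6 := (hB B hB').2
    omega
  set P : Finset (Finset (Fin n)) := 𝓐.image (fun A => tr n (range n \ A)) with hP
  set Q : Finset (Finset (Fin n)) := 𝓑.image (tr n) with hQ
  have hPc : P.card = 𝓐.card := by
    rw [hP, card_image_of_injOn]
    intro A hA' B hB' hAB
    rw [mem_coe] at hA' hB'
    have h1 := tr_inj n _ _ sdiff_subset sdiff_subset hAB
    have h2 : range n \ (range n \ A) = range n \ (range n \ B) := by rw [h1]
    rwa [Finset.sdiff_sdiff_eq_self (hA A hA').1, Finset.sdiff_sdiff_eq_self (hA B hB').1] at h2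
  have hQc : Q.card = 𝓑.card := by
    rw [hQ, card_image_of_injOn]
    intro A hA' B hB' hAB
    rw [mem_coe] at hA' hB'
    exact tr_inj n _ _ (hB A hA').1 (hB B hB').1 hAB
  have hPs : ∀ X ∈ P, X.card = n - i := by
    intro X hX
    rw [hP, mem_image] at hX
    obtain ⟨A, hA', rfl⟩ := hX
    rw [tr_card n _ sdiff_subset, card_sdiff_of_subset (hA A hA').1, card_range, (hA A hA').2]
  have hQs : ∀ X ∈ Q, X.card = i := by
    intro X hX
    rw [hQ, mem_image] at hX
    obtain ⟨B, hB', rfl⟩ := hX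
    rw [tr_card n _ (hB B hB').1, (hB B hB').2]
  have hPQ : ∀ X ∈ P, ∀ Y ∈ Q, ¬ X ⊆ Y := by
    intro X hX Y hY hsub
    rw [hP, mem_image] at hX
    rw [hQ, mem_image] at hY
    obtain ⟨A, hA', rfl⟩ := hX
    obtain ⟨B, hB', rfl⟩ := hY
    exact hkey A hA' B hB' (tr_sub n _ _ sdiff_subset hsub)
  have hdisj : Disjoint P Q := by
    rw [disjoint_left]
    intro X hX hY
    exact hPQ X hX X hY (Subset.refl _)
  have hanti : IsAntichain (· ⊆ ·) ((P ∪ Q : Finset (Finset (Fin n))) : Set (Finset (Fin n))) := by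
    intro X hX Y hY hne hsub
    rw [mem_coe, mem_union] at hX hY
    rcases hX with hX | hX <;> rcases hY with hY | hY
    · exact hne (eq_of_subset_of_card_le hsub (by rw [hPs X hX, hPs Y hY]))
    · exact hPQ X hX Y hY hsub
    · have h1 := card_le_card hsub
      rw [hQs X hX, hPs Y hY] at h1
      exact hne (eq_of_subset_of_card_le hsub (by rw [hQs X hX, hPs Y hY]; omega))
    · exact hne (eq_of_subset_of_card_le hsub (by rw [hQs X hX, hQs Y hY]))
  have hlym := lubell_yamamoto_meshalkin_inequality_sum_inv_choose (𝕜 := ℚ) hanti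
  rw [sum_union hdisj, Fintype.card_fin] at hlym
  have hpos : 0 < n.choose i := Nat.choose_pos hin
  have e1 : ∑ X ∈ P, ((n.choose X.card : ℚ))⁻¹ = 𝓐.card * (n.choose i : ℚ)⁻¹ := by
    rw [sum_congr rfl (fun X hX => by rw [hPs X hX, Nat.choose_symm hin]), sum_const, nsmul_eq_mul,
      hPc]
  have e2 : ∑ X ∈ Q, ((n.choose X.card : ℚ))⁻¹ = 𝓑.card * (n.choose i : ℚ)⁻¹ := by
    rw [sum_congr rfl (fun X hX => by rw [hQs X hX]), sum_const, nsmul_eq_mul, hQc]
  rw [e1, e2, ← add_mul, ← div_eq_mul_inv, div_le_one (by exact_mod_cast hpos)] at hlym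
  exact_mod_cast hlym

end Pool.Agent.H30.KF
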