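import Mathlib

/-!
# [H30 KF Defs] Katona's theorem, Frankl's theorem `m(n+1,t,1) = m(n,t)`, and MP_633f17_co

Families of finite sets of natural numbers.
-/

set_option autoImplicit false

namespace Pool.Agent.H30.KF

open Finset

/-- all members are subsets of `range n` -/
def On (n : ℕ) (F : Finset (Finset ℕ)) : Prop := ∀ A ∈ F, A ⊆ range n

/-- any two members (equal ones allowed) meet in at least `t` elements and cover at most `c` elements -/
def Inv (t c : ℕ) (F : Finset (Finset ℕ)) : Prop :=
  ∀ A ∈ F, ∀ B ∈ F, t ≤ (A ∩ B).card ∧ (A ∪ B).card ≤ c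

/-- closed under the replacement of an element by a smaller one -/
def Shifted (F : Finset (Finset ℕ)) : Prop :=
  ∀ A ∈ F, ∀ i j, i < j → j ∈ A → i ∉ A → insert i (A.erase j) ∈ F

end Pool.Agent.H30.KF
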