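import Pool.Agent.H30.KF.Defs

/-!
# [H30 KF Hit] the members of a shifted `t`-intersecting family hit the line

Let `A ∈ F`, `A ⊆ range n`, and suppose that `2 |A ∩ range q| + 1 ≠ q + t` for all `q ≤ n`.  CLAIM for all `q ≤ n` (induction on `q`):
(i) `2 |A ∩ range q| + 2 ≤ q + t`; (ii) there are `U ⊆ A ∩ range q` with `|U| = min (|A ∩ range q|) (t - 1)` and `V ⊆ range q \ A` with
`|V| + |U| = |A ∩ range q|` and `U ∪ V ∪ (A \ range q) ∈ F`.
`q = 0`: `t ≠ 1` (else the equation holds for `q = 0`), so `2 ≤ t`; `U = V = ∅`.
Step `q → q + 1`, (i): `|A ∩ range (q + 1)| ≤ |A ∩ range q| + 1`, so `2 |A ∩ range (q + 1)| + 1 ≤ q + 1 + t`, and equality is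
excluded.  (ii): if `q ∉ A` the same `U`, `V`.  If `q ∈ A` and `|A ∩ range q| < t - 1`: `insert q U`, `V`.  If `q ∈ A` and
`t - 1 ≤ |A ∩ range q|`: `|U| = t - 1`, `|V| = |A ∩ range q| - (t - 1) < q - |A ∩ range q| = |range q \ A|` by (i), so there is
`b ∈ range q \ A`, `b ∉ V`; `F` is shifted, `b < q`, `q` is in the set and `b` is not: replace `q` by `b`; `V' = insert b V`.
For `q = n`: `A \ range n = ∅`, `B = U ∪ V ∈ F`, `A ∩ B = U` has at most `t - 1` elements, a contradiction.
-/

set_option autoImplicit false

namespace Pool.Agent.H30.KF

open Finset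

private theorem card_inter_succ (A : Finset ℕ) (q : ℕ) :
    (A ∩ range (q + 1)).card = (A ∩ range q).card + (if q ∈ A then 1 else 0) := by
  rw [range_add_one]
  split_ifs with h
  · rw [inter_insert_of_mem h, card_insert_of_notMem]
    intro h1
    exact notMem_range_self (mem_of_mem_inter_right h1)
  · rw [inter_insert_of_notMem h, add_zero]

private theorem card_sdiff_add (A : Finset ℕ) (q : ℕ) :
    (range q \ A).card + (A ∩ range q).card = q := by
  have := card_sdiff_add_card_inter (range q) A
  rw [inter_comm, card_range] at this
  exact this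

theorem hit (n t : ℕ) (ht : 1 ≤ t) (F : Finset (Finset ℕ)) (hT : ∀ A ∈ F, ∀ B ∈ F, t ≤ (A ∩ B).card)
    (hS : Shifted F) (A : Finset ℕ) (hA : A ∈ F) (hAn : A ⊆ range n) :
    ∃ q ≤ n, 2 * (A ∩ range q).card + 1 = q + t := by
  classical
  by_contra hcon
  push Not at hcon
  have key : ∀ q, q ≤ n → 2 * (A ∩ range q).card + 2 ≤ q + t ∧ ∃ U V : Finset ℕ,
      U ⊆ A ∩ range q ∧ U.card = min (A ∩ range q).card (t - 1) ∧ V ⊆ range q \ A ∧
      V.card + U.card = (A ∩ range q).card ∧ U ∪ V ∪ (A \ range q) ∈ F := by
    intro q
    induction q with
    | zero =>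
      intro _
      have h0 := hcon 0 (Nat.zero_le _)
      rw [range_zero, inter_empty, card_empty] at h0 ⊢
      refine ⟨by omega, ∅, ∅, empty_subset _, ?_, empty_subset _, ?_, ?_⟩
      · rw [card_empty, Nat.zero_min]
      · rw [card_empty]
      · rw [empty_union, empty_union, sdiff_empty]
        exact hA
    | succ q ih =>
      intro hq
      obtain ⟨h1, U, V, hU, hUc, hV, hVc, hUV⟩ := ih (by omega)
      have h2 := hcon (q + 1) hq
      have h3 := card_inter_succ A q
      have h4 : 2 * (A ∩ range (q + 1)).card + 2 ≤ q + 1 + t := by
        split_ifs at h3 <;> omega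
      refine ⟨h4, ?_⟩
      have hsub : A ∩ range q ⊆ A ∩ range (q + 1) :=
        inter_subset_inter_left (range_subset_range.2 (Nat.le_succ q))
      have hsub' : range q \ A ⊆ range (q + 1) \ A :=
        sdiff_subset_sdiff (range_subset_range.2 (Nat.le_succ q)) (Subset.refl _)
      by_cases hqA : q ∈ A
      · rw [if_pos hqA] at h3
        have hqU : q ∉ U := fun h => by
          have := mem_of_mem_inter_right (hU h)
          exact notMem_range_self this
        have hqV : q ∉ V := fun h => by
          have := (mem_sdiff.1 (hV h)).1
          exact notMem_range_self this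
        have hsplit : A \ range q = insert q (A \ range (q + 1)) := by
          ext x
          rw [mem_insert, mem_sdiff, mem_sdiff, mem_range, mem_range]
          constructor
          · rintro ⟨hx, hx2⟩
            by_cases hxq : x = q
            · exact Or.inl hxq
            · exact Or.inr ⟨hx, by omega⟩
          · rintro (rfl | ⟨hx, hx2⟩)
            · exact ⟨hqA, by omega⟩
            · exact ⟨hx, by omega⟩
        rcases lt_or_ge (A ∩ range q).card (t - 1) with hlt | hge
        · refine ⟨insert q U, V, ?_, ?_, hV.trans hsub', ?_, ?_⟩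
          · intro x hx
            rcases mem_insert.1 hx with rfl | hx
            · exact mem_inter.2 ⟨hqA, mem_range.2 (by omega)⟩
            · exact hsub (hU hx)
          · rw [card_insert_of_notMem hqU, hUc, h3]
            omega
          · rw [card_insert_of_notMem hqU, h3]
            omega
          · have e : insert q U ∪ V ∪ (A \ range (q + 1)) = U ∪ V ∪ (A \ range q) := by
              rw [hsplit]
              ext x
              simp only [mem_union, mem_insert]
              tauto
            rw [e]
            exact hUV
        · have hUc' : U.card = t - 1 := by rw [hUc]; omega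
          have h5 := card_sdiff_add A q
          have h6 : V.card < (range q \ A).card := by omega
          obtain ⟨b, hb, hbV⟩ : ∃ b ∈ range q \ A, b ∉ V := by
            by_contra hno
            push Not at hno
            exact absurd (card_le_card (show range q \ A ⊆ V from hno)) (by omega)
          obtain ⟨hbq, hbA⟩ := mem_sdiff.1 hb
          rw [mem_range] at hbq
          have hmem : q ∈ U ∪ V ∪ (A \ range q) := by
            rw [mem_union]
            exact Or.inr (mem_sdiff.2 ⟨hqA, notMem_range_self⟩)
          have hbmem : b ∉ U ∪ V ∪ (A \ range q) := by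
            rw [mem_union, mem_union, mem_sdiff]
            rintro ((h | h) | h)
            · exact hbA (mem_inter.1 (hU h)).1
            · exact hbV h
            · exact hbA h.1
          have h7 := hS _ hUV b q hbq hmem hbmem
          refine ⟨U, insert b V, hU.trans hsub, ?_, ?_, ?_, ?_⟩
          · rw [hUc', h3]
            omega
          · intro x hx
            rcases mem_insert.1 hx with rfl | hx
            · exact mem_sdiff.2 ⟨mem_range.2 (by omega), hbA⟩
            · exact hsub' (hV hx)
          · rw [card_insert_of_notMem hbV, h3]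
            omega
          · have e : U ∪ insert b V ∪ (A \ range (q + 1)) =
                insert b ((U ∪ V ∪ (A \ range q)).erase q) := by
              ext x
              simp only [mem_union, mem_insert, mem_erase, mem_sdiff, mem_range]
              constructor
              · rintro ((hx | hx | hx) | ⟨hx, hx2⟩)
                · exact Or.inr ⟨fun h => hqU (h ▸ hx), Or.inl (Or.inl hx)⟩
                · exact Or.inl hx
                · exact Or.inr ⟨fun h => hqV (h ▸ hx), Or.inl (Or.inr hx)⟩
                · exact Or.inr ⟨by omega, Or.inr ⟨hx, by omega⟩⟩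
              · rintro (hx | ⟨hxq, (hx | hx) | ⟨hx, hx2⟩⟩)
                · exact Or.inl (Or.inr (Or.inl hx))
                · exact Or.inl (Or.inl hx)
                · exact Or.inl (Or.inr (Or.inr hx))
                · exact Or.inr ⟨hx, by omega⟩
            rw [e]
            exact h7
      · rw [if_neg hqA, add_zero] at h3
        refine ⟨U, V, hU.trans hsub, by rw [hUc, h3], hV.trans hsub', by rw [hVc, h3], ?_⟩
        have e : A \ range (q + 1) = A \ range q := by
          ext x
          rw [mem_sdiff, mem_sdiff, mem_range, mem_range]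
          constructor
          · rintro ⟨hx, hx2⟩
            exact ⟨hx, by omega⟩
          · rintro ⟨hx, hx2⟩
            have : x ≠ q := fun h => hqA (h ▸ hx)
            exact ⟨hx, by omega⟩
        rw [e]
        exact hUV
  obtain ⟨-, U, V, hU, hUc, hV, -, hUV⟩ := key n le_rfl
  have h1 := hT A hA _ hUV
  have h2 : A ∩ (U ∪ V ∪ (A \ range n)) ⊆ U := by
    intro x hx
    rw [mem_inter, mem_union, mem_union, mem_sdiff] at hx
    obtain ⟨hx, (hx2 | hx2) | hx2⟩ := hx
    · exact hx2
    · exact absurd hx (mem_sdiff.1 (hV hx2)).2
    · exact absurd (hAn hx) hx2.2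
  have h3 := card_le_card h2
  have h4 : U.card ≤ t - 1 := by rw [hUc]; exact min_le_right _ _
  omega

end Pool.Agent.H30.KF
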