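import Pool.Agent.H30.KF.Bas

/-!
# [H30 KF Pai] pairs of levels

Induction on `n` (all other variables general).  If `n < i` then `𝓐` is empty and (as `n < i'`) `𝓑` is empty.
If `i = i'` this is `base` (`hin` from the previous remark).  Let `i < i'`.  If `n = 0`: `𝓑` is empty as `i' > 0`; a member of `𝓐` is
`∅`, `i = 0`, and hits the line: `1 = 0 + t`, so `t = 1` and `0 + i' + 1 = 0 + 1`, a contradiction; so `𝓐` is empty.  Let `n = k + 1`.
`𝓐₀` = the members without `k`, `𝓐₁` = the members with `k`, with `k` removed (`erase`, injective there), the same for `𝓑`.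
All are families of subsets of `range k`.  `𝓐₀` (size `i`) and `𝓑₁` (size `i' - 1`, `i ≤ i' - 1`) are cross `t`-intersecting in
`range k`, and `𝓐₁` (size `i - 1`) and `𝓑₀` (size `i'`) also (`k` is never in the intersection).  Sizes: `i + (i' - 1) + 1 = k + t`,
`(i - 1) + i' + 1 = k + t`.  A member of `𝓐` hits the line at some `q ≤ n`; `q ≠ n`, as `2 i + 1 < i + i' + 1 = n + t`; so `q ≤ k` and the
prefix does not change when `k` is removed.  (If `𝓐₁` is empty because `i = 0`, or `i' = 0` does not occur as `i < i'`: treat `i = 0`: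
`𝓐₁ = ∅`, and `𝓑₀.card ≤ k.choose i'` directly, `card_powersetCard`.)  The induction hypothesis gives
`𝓐₀.card + 𝓑₁.card ≤ k.choose (i' - 1)` and `𝓐₁.card + 𝓑₀.card ≤ k.choose i'`; add them (`Nat.choose_succ_succ`).
-/

set_option autoImplicit false

namespace Pool.Agent.H30.KF

open Finset

private theorem inter_pre (A : Finset ℕ) (k q : ℕ) (hq : q ≤ k) :
    A.erase k ∩ range q = A ∩ range q := by
  ext x
  rw [mem_inter, mem_inter, mem_erase, mem_range]
  constructor
  · rintro ⟨⟨-, h⟩, h2⟩
    exact ⟨h, h2⟩
  · rintro ⟨h, h2⟩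
    exact ⟨⟨by omega, h⟩, h2⟩

private theorem sub_of_notMem {A : Finset ℕ} {k : ℕ} (h : A ⊆ range (k + 1)) (hk : k ∉ A) :
    A ⊆ range k := by
  intro x hx
  have h1 := mem_range.1 (h hx)
  have h2 : x ≠ k := fun h3 => hk (h3 ▸ hx)
  rw [mem_range]
  omega

private theorem erase_sub {A : Finset ℕ} {k : ℕ} (h : A ⊆ range (k + 1)) : A.erase k ⊆ range k := by
  intro x hx
  obtain ⟨h2, hx⟩ := mem_erase.1 hx
  have h1 := mem_range.1 (h hx)
  rw [mem_range]
  omega

private theorem card_split (F : Finset (Finset ℕ)) (k : ℕ) :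
    F.card = (F.filter (fun A => k ∉ A)).card + ((F.filter (fun A => k ∈ A)).image
      (fun A => A.erase k)).card := by
  classical
  rw [card_image_of_injOn]
  · rw [add_comm]
    exact (card_filter_add_card_filter_not (fun A => k ∈ A)).symm
  · intro A hA B hB h
    rw [mem_coe, mem_filter] at hA hB
    have h' : A.erase k = B.erase k := h
    rw [← insert_erase hA.2, ← insert_erase hB.2, h']

theorem pair (n t i i' : ℕ) (ht : 1 ≤ t) (hi : i ≤ i') (hs : i + i' + 1 = n + t)
    (𝓐 𝓑 : Finset (Finset ℕ))
    (hA : ∀ A ∈ 𝓐, A ⊆ range n ∧ A.card = i ∧ ∃ q ≤ n, 2 * (A ∩ range q).card + 1 = q + t)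
    (hB : ∀ B ∈ 𝓑, B ⊆ range n ∧ B.card = i') (hc : ∀ A ∈ 𝓐, ∀ B ∈ 𝓑, t ≤ (A ∩ B).card) :
    𝓐.card + 𝓑.card ≤ n.choose i' := by
  classical
  induction n generalizing i i' 𝓐 𝓑 with
  | zero =>
    rcases eq_or_lt_of_le hi with h | h
    · subst h
      rcases Nat.eq_zero_or_pos i with h0 | h0
      · exact base 0 i t ht (by omega) (by omega) 𝓐 𝓑 (fun A hA' => ⟨(hA A hA').1, (hA A hA').2.1⟩)
          hB hc
      · have h1 : 𝓐 = ∅ := by
          rw [eq_empty_iff_forall_notMem]
          intro A hA'
          obtain ⟨h2, h3, -⟩ := hA A hA'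
          have := card_le_card h2
          rw [card_range] at this
          omega
        have h2 : 𝓑 = ∅ := by
          rw [eq_empty_iff_forall_notMem]
          intro B hB'
          obtain ⟨h2, h3⟩ := hB B hB'
          have := card_le_card h2
          rw [card_range] at this
          omega
        rw [h1, h2, card_empty]
        exact Nat.zero_le _
    · have h2 : 𝓑 = ∅ := by
        rw [eq_empty_iff_forall_notMem]
        intro B hB'
        obtain ⟨h2, h3⟩ := hB B hB'
        have := card_le_card h2
        rw [card_range] at this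
        omega
      have h1 : 𝓐 = ∅ := by
        rw [eq_empty_iff_forall_notMem]
        intro A hA'
        obtain ⟨h2, h3, q, hq, hq2⟩ := hA A hA'
        have h4 := card_le_card h2
        rw [card_range] at h4
        have h5 := card_le_card (inter_subset_left (s₁ := A) (s₂ := range q))
        omega
      rw [h1, h2, card_empty]
      exact Nat.zero_le _
  | succ k ih =>
    rcases eq_or_lt_of_le hi with h | h
    · subst h
      rcases le_or_gt i (k + 1) with hik | hik
      · exact base (k + 1) i t ht (by omega) hik 𝓐 𝓑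
          (fun A hA' => ⟨(hA A hA').1, (hA A hA').2.1⟩) hB hc
      · have h1 : 𝓐 = ∅ := by
          rw [eq_empty_iff_forall_notMem]
          intro A hA'
          obtain ⟨h2, h3, -⟩ := hA A hA'
          have := card_le_card h2
          rw [card_range] at this
          omega
        have h2 : 𝓑 = ∅ := by
          rw [eq_empty_iff_forall_notMem]
          intro B hB'
          obtain ⟨h2, h3⟩ := hB B hB'
          have := card_le_card h2
          rw [card_range] at this
          omega
        rw [h1, h2, card_empty]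
        exact Nat.zero_le _
    · -- the four families
      have hhit : ∀ A ∈ 𝓐, ∃ q ≤ k, 2 * (A ∩ range q).card + 1 = q + t := by
        intro A hA'
        obtain ⟨h1, h2, q, hq, hq2⟩ := hA A hA'
        have h5 := card_le_card (inter_subset_left (s₁ := A) (s₂ := range q))
        refine ⟨q, ?_, hq2⟩
        by_contra hcon
        have h6 : q = k + 1 := by omega
        subst h6
        rw [inter_eq_left.2 h1] at hq2
        omega
      have hB0 : ∀ B ∈ 𝓑.filter (fun B => k ∉ B), B ⊆ range k ∧ B.card = i' := by
        intro B hB'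
        rw [mem_filter] at hB'
        exact ⟨sub_of_notMem (hB B hB'.1).1 hB'.2, (hB B hB'.1).2⟩
      have hB1 : ∀ B ∈ (𝓑.filter (fun B => k ∈ B)).image (fun B => B.erase k),
          B ⊆ range k ∧ B.card = i' - 1 := by
        intro B hB'
        rw [mem_image] at hB'
        obtain ⟨B', hB', rfl⟩ := hB'
        rw [mem_filter] at hB'
        refine ⟨erase_sub (hB B' hB'.1).1, ?_⟩
        rw [card_erase_of_mem hB'.2, (hB B' hB'.1).2]
      have hA0 : ∀ A ∈ 𝓐.filter (fun A => k ∉ A), A ⊆ range k ∧ A.card = i ∧
          ∃ q ≤ k, 2 * (A ∩ range q).card + 1 = q + t := by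
        intro A hA'
        rw [mem_filter] at hA'
        exact ⟨sub_of_notMem (hA A hA'.1).1 hA'.2, (hA A hA'.1).2.1, hhit A hA'.1⟩
      have hA1 : ∀ A ∈ (𝓐.filter (fun A => k ∈ A)).image (fun A => A.erase k),
          A ⊆ range k ∧ A.card = i - 1 ∧ ∃ q ≤ k, 2 * (A ∩ range q).card + 1 = q + t := by
        intro A hA'
        rw [mem_image] at hA'
        obtain ⟨A', hA', rfl⟩ := hA'
        rw [mem_filter] at hA'
        refine ⟨erase_sub (hA A' hA'.1).1, ?_, ?_⟩
        · rw [card_erase_of_mem hA'.2, (hA A' hA'.1).2.1]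
        · obtain ⟨q, hq, hq2⟩ := hhit A' hA'.1
          refine ⟨q, hq, ?_⟩
          rw [inter_pre A' k q hq]
          exact hq2
      have hc01 : ∀ A ∈ 𝓐.filter (fun A => k ∉ A),
          ∀ B ∈ (𝓑.filter (fun B => k ∈ B)).image (fun B => B.erase k), t ≤ (A ∩ B).card := by
        intro A hA' B hB'
        rw [mem_filter] at hA'
        rw [mem_image] at hB'
        obtain ⟨B', hB', rfl⟩ := hB'
        rw [mem_filter] at hB'
        have h1 := hc A hA'.1 B' hB'.1
        have h2 : A ∩ B'.erase k = A ∩ B' := by
          ext x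
          rw [mem_inter, mem_inter, mem_erase]
          constructor
          · rintro ⟨hx, -, hx2⟩
            exact ⟨hx, hx2⟩
          · rintro ⟨hx, hx2⟩
            exact ⟨hx, fun h => hA'.2 (h ▸ hx), hx2⟩
        rw [h2]
        exact h1
      have hc10 : ∀ A ∈ (𝓐.filter (fun A => k ∈ A)).image (fun A => A.erase k),
          ∀ B ∈ 𝓑.filter (fun B => k ∉ B), t ≤ (A ∩ B).card := by
        intro A hA' B hB'
        rw [mem_filter] at hB'
        rw [mem_image] at hA'
        obtain ⟨A', hA', rfl⟩ := hA'
        rw [mem_filter] at hA'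
        have h1 := hc A' hA'.1 B hB'.1
        have h2 : A'.erase k ∩ B = A' ∩ B := by
          ext x
          rw [mem_inter, mem_inter, mem_erase]
          constructor
          · rintro ⟨⟨-, hx⟩, hx2⟩
            exact ⟨hx, hx2⟩
          · rintro ⟨hx, hx2⟩
            exact ⟨⟨fun h => hB'.2 (h ▸ hx2), hx⟩, hx2⟩
        rw [h2]
        exact h1
      have r1 := ih i (i' - 1) (by omega) (by omega) _ _ hA0 hB1 hc01
      have hsplitA := card_split 𝓐 k
      have hsplitB := card_split 𝓑 k
      have r2 : ((𝓐.filter (fun A => k ∈ A)).image (fun A => A.erase k)).card +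
          (𝓑.filter (fun B => k ∉ B)).card ≤ k.choose i' := by
        rcases Nat.eq_zero_or_pos i with h0 | h0
        · have h1 : 𝓐.filter (fun A => k ∈ A) = ∅ := by
            rw [eq_empty_iff_forall_notMem]
            intro A hA'
            rw [mem_filter] at hA'
            have h2 := (hA A hA'.1).2.1
            rw [h0, card_eq_zero] at h2
            rw [h2] at hA'
            exact notMem_empty _ hA'.2
          rw [h1, image_empty, card_empty, zero_add]
          have h2 : 𝓑.filter (fun B => k ∉ B) ⊆ powersetCard i' (range k) := by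
            intro B hB'
            rw [mem_powersetCard]
            exact hB0 B hB'
          refine (card_le_card h2).trans ?_
          rw [card_powersetCard, card_range]
        · exact ih (i - 1) i' (by omega) (by omega) _ _ hA1 hB0 hc10
      have hch : (k + 1).choose i' = k.choose (i' - 1) + k.choose i' := by
        obtain ⟨j, rfl⟩ : ∃ j, i' = j + 1 := ⟨i' - 1, by omega⟩
        rw [Nat.add_sub_cancel]
        exact Nat.choose_succ_succ k j
      omega

end Pool.Agent.H30.KF
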