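import Pool.Agent.H30.KF.Shf
import Pool.Agent.H30.KF.Hit
import Pool.Agent.H30.KF.Pai

/-!
# [H30 KF KaE] Katona's theorem, `n + t` even

By `exists_shifted` (`c = n`; unions have at most `n` elements) we may assume that `F` is shifted.  Let `F_i` be the members of size
`i`.  `F_i` is empty for `i < t` (`A ∩ A = A`) and for `i > n`.  For `t ≤ i < u` let `i' = n + t - 1 - i`; then
`i < u ≤ i' ≤ n`.  By `hit` all members of `F_i` hit the line and `pair` gives `|F_i| + |F_(i')| ≤ n.choose i'`.  Sum over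
`t - 1 ≤ i < u`, i.e. over `i' ∈ Icc u n` (for `i = t - 1`, `i' = n`: `|F_n| ≤ 1`, also by `pair` with the empty family):
`F.card = ∑ i ∈ range (n + 1), |F_i| = ∑ i' ∈ Icc u n, (|F_(i')| + |F_(n + t - 1 - i')|)`, the other `F_i` being empty
(`Finset.card_eq_sum_card_fiberwise`).
-/

set_option autoImplicit false

namespace Pool.Agent.H30.KF

open Finset

theorem katE (n t u : ℕ) (ht : 1 ≤ t) (hu : n + t = 2 * u) (F : Finset (Finset ℕ)) (hF : On n F)
    (hT : ∀ A ∈ F, ∀ B ∈ F, t ≤ (A ∩ B).card) : F.card ≤ ∑ i ∈ Icc u n, n.choose i := by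
  classical
  obtain ⟨G, hG, hI, hS, hc⟩ := exists_shifted n t n F hF (fun A hA B hB => by
    refine ⟨hT A hA B hB, ?_⟩
    have := card_le_card (union_subset (hF A hA) (hF B hB))
    rwa [card_range] at this)
  have hT' : ∀ A ∈ G, ∀ B ∈ G, t ≤ (A ∩ B).card := fun A hA B hB => (hI A hA B hB).1
  have hlo : ∀ A ∈ G, t ≤ A.card := fun A hA => by
    have := hT' A hA A hA
    rwa [inter_self] at this
  have hhi : ∀ A ∈ G, A.card ≤ n := fun A hA => by
    have := card_le_card (hG A hA)
    rwa [card_range] at this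
  rw [← hc]
  let φ : Finset ℕ → ℕ := fun A => if u ≤ A.card then A.card else n + t - 1 - A.card
  have hφ : ∀ A ∈ G, φ A ∈ Icc u n := by
    intro A hA
    have h1 := hlo A hA
    have h2 := hhi A hA
    show (if u ≤ A.card then A.card else n + t - 1 - A.card) ∈ Icc u n
    split_ifs with h
    · exact mem_Icc.2 ⟨h, h2⟩
    · exact mem_Icc.2 ⟨by omega, by omega⟩
  rw [card_eq_sum_card_fiberwise hφ]
  refine sum_le_sum fun i' hi' => ?_
  rw [mem_Icc] at hi'
  have hp := pair n t (n + t - 1 - i') i' ht (by omega) (by omega)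
    (G.filter (fun A => A.card = n + t - 1 - i')) (G.filter (fun A => A.card = i'))
    (fun A hA => by
      rw [mem_filter] at hA
      exact ⟨hG A hA.1, hA.2, hit n t ht G hT' hS A hA.1 (hG A hA.1)⟩)
    (fun B hB => by
      rw [mem_filter] at hB
      exact ⟨hG B hB.1, hB.2⟩)
    (fun A hA B hB => hT' A (mem_filter.1 hA).1 B (mem_filter.1 hB).1)
  refine le_trans ?_ hp
  refine le_trans (card_le_card (t := (G.filter (fun A => A.card = n + t - 1 - i')) ∪
    (G.filter (fun A => A.card = i'))) ?_) (card_union_le _ _)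
  intro A hA
  rw [mem_filter] at hA
  obtain ⟨hA, hA2⟩ := hA
  have h1 := hlo A hA
  have h2 := hhi A hA
  have h3 : (if u ≤ A.card then A.card else n + t - 1 - A.card) = i' := hA2
  rw [mem_union, mem_filter, mem_filter]
  split_ifs at h3 with h
  · exact Or.inr ⟨hA, h3⟩
  · exact Or.inl ⟨hA, by omega⟩

end Pool.Agent.H30.KF
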