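import Pool.Agent.H30.KF.KaE

/-!
# [H30 KF KaO] Katona's theorem, `n + t` odd (with `n + 1` for `n`)

By `exists_shifted` (`c = n + 1`) `F` is shifted.  `F₀` = the members without `n`, `F₁` = the sets `A.erase n`, `n ∈ A ∈ F`; subsets of
`range n`.  `F.card = F₀.card + F₁.card`.  Two members `A`, `B` of `F₁` of the SAME PARITY of size meet in `≥ t` elements: they meet in
`≥ t - 1` (`insert n A ∩ insert n B`); if there is `i ∈ range n`, `i ∉ A ∪ B` then `insert i A ∈ F` (shift of `insert n A`), and it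
meets `insert n B` in `A ∩ B`; so `≥ t`.  If `A ∪ B = range n` and `|A ∩ B| = t - 1` then `|A| + |B| = n + t - 1` is odd, a contradiction.
`F₀` is `t`-intersecting and `F₀`, `F₁` are cross `t`-intersecting.  Let `F₁ᵉ`, `F₁ᵒ` be the members of even and odd size, the same
for `F₀`.  So `F₀ ∪ F₁ᵉ` and `F₀ ∪ F₁ᵒ` are `t`-intersecting on `range n`, and by `katE` each has at most
`K = ∑ i ∈ Icc a n, n.choose i` members.  `F₀ ∪ F₁ᵉ ⊇ F₁ᵉ ∪ F₀ᵒ` (disjoint), `F₀ ∪ F₁ᵒ ⊇ F₁ᵒ ∪ F₀ᵉ` (disjoint), so
`F.card = |F₁ᵉ| + |F₀ᵒ| + |F₁ᵒ| + |F₀ᵉ| ≤ 2 K`.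
-/

set_option autoImplicit false

namespace Pool.Agent.H30.KF

open Finset

private theorem card_split (F : Finset (Finset ℕ)) (k : ℕ) :
    F.card = (F.filter (fun A => k ∉ A)).card + ((F.filter (fun A => k ∈ A)).image
      (fun A => A.erase k)).card := by
  classical
  rw [card_image_of_injOn]
  · rw [add_comm]
    exact (card_filter_add_card_filter_not (fun A => k ∈ A)).symm
  · intro A hA B hB h
    rw [mem_coe, mem_filter] at hA hB
    have h' : A.erase k = B.erase k := h
    rw [← insert_erase hA.2, ← insert_erase hB.2, h']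

/-- members of `F₁` of the same parity -/
private theorem par (n t a : ℕ) (ha : n + t = 2 * a) (G : Finset (Finset ℕ)) (hG : On (n + 1) G)
    (hT : ∀ A ∈ G, ∀ B ∈ G, t ≤ (A ∩ B).card) (hS : Shifted G) (A B : Finset ℕ) (hA : A ∈ G)
    (hB : B ∈ G) (hnA : n ∈ A) (hnB : n ∈ B) (hp : (A.erase n).card % 2 = (B.erase n).card % 2) :
    t ≤ (A.erase n ∩ B.erase n).card := by
  classical
  by_cases hex : ∃ i ∈ range n, i ∉ A ∪ B
  · obtain ⟨i, hi, hiAB⟩ := hex
    rw [mem_range] at hi
    rw [mem_union, not_or] at hiAB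
    have h1 := hS A hA i n hi hnA hiAB.1
    have h2 := hT _ h1 B hB
    refine h2.trans (card_le_card ?_)
    intro x hx
    rw [mem_inter, mem_insert, mem_erase] at hx
    rw [mem_inter, mem_erase, mem_erase]
    obtain ⟨hx | hx, hx2⟩ := hx
    · exact absurd (hx ▸ hx2) hiAB.2
    · exact ⟨hx, hx.1, hx2⟩
  · push Not at hex
    have h1 := hT A hA B hB
    have e1 : A ∪ B = range (n + 1) := by
      apply Subset.antisymm (union_subset (hG A hA) (hG B hB))
      intro x hx
      rw [mem_range] at hx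
      by_cases hxn : x = n
      · rw [hxn]
        exact mem_union_left _ hnA
      · exact hex x (mem_range.2 (by omega))
    have h2 := card_union_add_card_inter A B
    rw [e1, card_range] at h2
    have h3 := card_erase_add_one hnA
    have h4 := card_erase_add_one hnB
    have h5 : A.erase n ∩ B.erase n = (A ∩ B).erase n := by
      ext x
      simp only [mem_inter, mem_erase]
      tauto
    have h6 := card_erase_add_one (mem_inter.2 ⟨hnA, hnB⟩)
    rw [h5]
    omega

theorem katO (n t a : ℕ) (ht : 1 ≤ t) (ha : n + t = 2 * a) (F : Finset (Finset ℕ)) (hF : On (n + 1) F)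
    (hT : ∀ A ∈ F, ∀ B ∈ F, t ≤ (A ∩ B).card) : F.card ≤ 2 * ∑ i ∈ Icc a n, n.choose i := by
  classical
  obtain ⟨G, hG, hI, hS, hc⟩ := exists_shifted (n + 1) t (n + 1) F hF (fun A hA B hB => by
    refine ⟨hT A hA B hB, ?_⟩
    have := card_le_card (union_subset (hF A hA) (hF B hB))
    rwa [card_range] at this)
  have hT' : ∀ A ∈ G, ∀ B ∈ G, t ≤ (A ∩ B).card := fun A hA B hB => (hI A hA B hB).1
  rw [← hc, card_split G n]
  set F₀ := G.filter (fun A => n ∉ A) with hF₀
  set F₁ := (G.filter (fun A => n ∈ A)).image (fun A => A.erase n) with hF₁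
  have m0 : ∀ A ∈ F₀, A ∈ G ∧ n ∉ A := fun A hA => mem_filter.1 hA
  have m1 : ∀ A ∈ F₁, ∃ A' ∈ G, n ∈ A' ∧ A'.erase n = A := by
    intro A hA
    rw [hF₁, mem_image] at hA
    obtain ⟨A', hA', h⟩ := hA
    rw [mem_filter] at hA'
    exact ⟨A', hA'.1, hA'.2, h⟩
  have o0 : On n F₀ := by
    intro A hA x hx
    have h1 := mem_range.1 (hG A (m0 A hA).1 hx)
    have h2 : x ≠ n := fun h => (m0 A hA).2 (h ▸ hx)
    exact mem_range.2 (by omega)
  have o1 : On n F₁ := by
    intro A hA x hx
    obtain ⟨A', hA', -, rfl⟩ := m1 A hA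
    rw [mem_erase] at hx
    have h1 := mem_range.1 (hG A' hA' hx.2)
    exact mem_range.2 (by omega)
  have c01 : ∀ A ∈ F₀, ∀ B ∈ F₁, t ≤ (A ∩ B).card := by
    intro A hA B hB
    obtain ⟨B', hB', -, rfl⟩ := m1 B hB
    refine (hT' A (m0 A hA).1 B' hB').trans (card_le_card ?_)
    intro x hx
    rw [mem_inter] at hx
    rw [mem_inter, mem_erase]
    exact ⟨hx.1, fun h => (m0 A hA).2 (h ▸ hx.1), hx.2⟩
  have key : ∀ e : ℕ, (F₀ ∪ F₁.filter (fun A => A.card % 2 = e)).card ≤
      ∑ i ∈ Icc a n, n.choose i := by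
    intro e
    apply katE n t a ht ha
    · intro A hA
      rcases mem_union.1 hA with h | h
      · exact o0 A h
      · exact o1 A (mem_filter.1 h).1
    · intro A hA B hB
      rcases mem_union.1 hA with hA | hA <;> rcases mem_union.1 hB with hB | hB
      · exact hT' A (m0 A hA).1 B (m0 B hB).1
      · exact c01 A hA B (mem_filter.1 hB).1
      · rw [inter_comm]
        exact c01 B hB A (mem_filter.1 hA).1
      · obtain ⟨hA1, hA2⟩ := mem_filter.1 hA
        obtain ⟨hB1, hB2⟩ := mem_filter.1 hB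
        obtain ⟨A', hA', hnA, rfl⟩ := m1 A hA1
        obtain ⟨B', hB', hnB, rfl⟩ := m1 B hB1
        exact par n t a ha G hG hT' hS A' B' hA' hB' hnA hnB (by rw [hA2, hB2])
  have k0 : (F₁.filter (fun A => A.card % 2 = 0)).card + (F₀.filter (fun A => A.card % 2 = 1)).card ≤
      ∑ i ∈ Icc a n, n.choose i := by
    have hd : Disjoint (F₁.filter (fun A => A.card % 2 = 0)) (F₀.filter (fun A => A.card % 2 = 1)) := by
      rw [disjoint_left]
      intro A hA hA'
      have h1 := (mem_filter.1 hA).2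
      have h2 := (mem_filter.1 hA').2
      omega
    rw [← card_union_of_disjoint hd]
    refine (card_le_card ?_).trans (key 0)
    intro A hA
    rcases mem_union.1 hA with h | h
    · exact mem_union_right _ h
    · exact mem_union_left _ (mem_filter.1 h).1
  have k1 : (F₁.filter (fun A => A.card % 2 = 1)).card + (F₀.filter (fun A => A.card % 2 = 0)).card ≤
      ∑ i ∈ Icc a n, n.choose i := by
    have hd : Disjoint (F₁.filter (fun A => A.card % 2 = 1)) (F₀.filter (fun A => A.card % 2 = 0)) := by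
      rw [disjoint_left]
      intro A hA hA'
      have h1 := (mem_filter.1 hA).2
      have h2 := (mem_filter.1 hA').2
      omega
    rw [← card_union_of_disjoint hd]
    refine (card_le_card ?_).trans (key 1)
    intro A hA
    rcases mem_union.1 hA with h | h
    · exact mem_union_right _ h
    · exact mem_union_left _ (mem_filter.1 h).1
  have s : ∀ H : Finset (Finset ℕ), H.card = (H.filter (fun A => A.card % 2 = 0)).card +
      (H.filter (fun A => A.card % 2 = 1)).card := by
    intro H
    rw [← card_filter_add_card_filter_not (fun A : Finset ℕ => A.card % 2 = 0)]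
    congr 2
    ext A
    rw [mem_filter, mem_filter]
    constructor <;> rintro ⟨h1, h2⟩ <;> exact ⟨h1, by omega⟩
  have s0 := s F₀
  have s1 := s F₁
  omega

end Pool.Agent.H30.KF
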