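import Pool.Agent.H30.KF.Defs

/-!
# [H30 KF Shf] shifting

For `i < j` let `S = UV.compression {i} {j} F` (Mathlib, `Mathlib/Combinatorics/SetFamily/Compression/UV.lean`;
`UV.card_compression` : same number of members, `UV.mem_compression`, `UV.compress` is `insert i (A.erase j)` if `j ∈ A`, `i ∉ A`
and `A` otherwise).  A moved set is `A' = insert i (A.erase j)` with `A ∈ F`, `j ∈ A`, `i ∉ A`, `A' ∉ F`; a set `B ∈ F` stays if
`j ∉ B` or `i ∈ B` or `insert i (B.erase j) ∈ F`.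
`Inv t c` is preserved: both stay: clear.  Both moved: `A' ∩ B'` is `A ∩ B` with `j` replaced by `i`, the union also.  `A` moved,
`B` stays: (1) `j ∉ B`: `A ∩ B ⊆ A' ∩ B`, and `A' ∪ B = insert i ((A ∪ B).erase j)`; (2) `j ∈ B`, `i ∈ B`: `A' ∩ B` is `A ∩ B` with `j`
replaced by `i`, `A' ∪ B = A ∪ B`; (3) `j ∈ B`, `i ∉ B`, `B* = insert i (B.erase j) ∈ F`: `A' ∩ B = A ∩ B* ` (both are
`(A ∩ B).erase j`) and `A' ∪ B = A ∪ B* ` (both are `insert i (A ∪ B)`).  `On n` is preserved (`i < j < n`).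
`exists_shifted`: choose a family `G` with `On n`, `Inv t c`, `G.card = F.card` and `∑ A ∈ G, ∑ x ∈ A, x` as small as possible
(`Nat.find` or strong induction on this sum).  If it is not shifted, some `A ∈ G` is moved by `S` for a pair `i < j`, and the sum
for `S G` is smaller (moved sets have smaller sum; the sum over `S G` is the sum over the images of the members of `G` under the
injective map which moves the sets to be moved; or split `S G` as in the definition of `UV.compression`).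
-/

set_option autoImplicit false

namespace Pool.Agent.H30.KF

open Finset

/-- replace `j` by `i` -/
private def mv (i j : ℕ) (A : Finset ℕ) : Finset ℕ := insert i (A.erase j)

private theorem mem_mv (i j : ℕ) (A : Finset ℕ) (x : ℕ) : x ∈ mv i j A ↔ x = i ∨ (x ≠ j ∧ x ∈ A) := by
  unfold mv
  rw [mem_insert, mem_erase]

private theorem card_mv (i j : ℕ) (A : Finset ℕ) (hj : j ∈ A) (hi : i ∉ A) :
    (mv i j A).card = A.card := by
  unfold mv
  rw [card_insert_of_notMem (fun h => hi (mem_of_mem_erase h)), card_erase_of_mem hj]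
  have := card_pos.2 ⟨j, hj⟩
  omega

private theorem mv_inj (i j : ℕ) (A B : Finset ℕ) (hij : i ≠ j) (hjA : j ∈ A) (hiA : i ∉ A)
    (hjB : j ∈ B) (hiB : i ∉ B) (h : mv i j A = mv i j B) : A = B := by
  ext x
  have h1 : x ∈ mv i j A ↔ x ∈ mv i j B := by rw [h]
  rw [mem_mv, mem_mv] at h1
  by_cases hx : x = j
  · rw [hx]
    exact ⟨fun _ => hjB, fun _ => hjA⟩
  · by_cases hx2 : x = i
    · rw [hx2]
      exact ⟨fun h => absurd h hiA, fun h => absurd h hiB⟩
    · tauto

private theorem both (i j : ℕ) (A B : Finset ℕ) (hij : i ≠ j) (hjA : j ∈ A) (hiA : i ∉ A)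
    (hjB : j ∈ B) (hiB : i ∉ B) : (mv i j A ∩ mv i j B).card = (A ∩ B).card ∧
      (mv i j A ∪ mv i j B).card = (A ∪ B).card := by
  have e1 : mv i j A ∩ mv i j B = mv i j (A ∩ B) := by
    ext x
    simp only [mem_inter, mem_mv]
    tauto
  have e2 : mv i j A ∪ mv i j B = mv i j (A ∪ B) := by
    ext x
    simp only [mem_union, mem_mv]
    tauto
  rw [e1, e2, card_mv, card_mv]
  · exact ⟨rfl, rfl⟩
  · exact mem_union_left _ hjA
  · rw [mem_union]; tauto
  · exact mem_inter.2 ⟨hjA, hjB⟩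
  · rw [mem_inter]; tauto

private theorem one (t c i j : ℕ) (F : Finset (Finset ℕ)) (hI : Inv t c F) (A B : Finset ℕ)
    (hA : A ∈ F) (hB : B ∈ F) (hij : i ≠ j) (hjA : j ∈ A) (hiA : i ∉ A)
    (hst : ¬ (j ∈ B ∧ i ∉ B ∧ mv i j B ∉ F)) :
    t ≤ (mv i j A ∩ B).card ∧ (mv i j A ∪ B).card ≤ c := by
  have h0 := hI A hA B hB
  by_cases hjB : j ∈ B
  · by_cases hiB : i ∈ B
    · have e1 : mv i j A ∩ B = mv i j (A ∩ B) := by
        ext x
        simp only [mem_inter, mem_mv]
        constructor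
        · rintro ⟨h | ⟨h1, h2⟩, h3⟩
          · exact Or.inl h
          · exact Or.inr ⟨h1, h2, h3⟩
        · rintro (h | ⟨h1, h2, h3⟩)
          · rw [h]
            exact ⟨Or.inl rfl, hiB⟩
          · exact ⟨Or.inr ⟨h1, h2⟩, h3⟩
      have e2 : mv i j A ∪ B = A ∪ B := by
        ext x
        simp only [mem_union, mem_mv]
        constructor
        · rintro ((h | ⟨h1, h2⟩) | h3)
          · rw [h]; exact Or.inr hiB
          · exact Or.inl h2
          · exact Or.inr h3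
        · rintro (h | h)
          · by_cases hx : x = j
            · rw [hx]; exact Or.inr hjB
            · exact Or.inl (Or.inr ⟨hx, h⟩)
          · exact Or.inr h
      rw [e1, e2, card_mv _ _ _ (mem_inter.2 ⟨hjA, hjB⟩) (fun h => hiA (mem_inter.1 h).1)]
      exact h0
    · have hmB : mv i j B ∈ F := by
        by_contra hcon
        exact hst ⟨hjB, hiB, hcon⟩
      have h1 := hI A hA _ hmB
      have e1 : mv i j A ∩ B = A ∩ mv i j B := by
        ext x
        simp only [mem_inter, mem_mv]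
        constructor
        · rintro ⟨h | ⟨h1, h2⟩, h3⟩
          · exact absurd (h ▸ h3) hiB
          · exact ⟨h2, Or.inr ⟨h1, h3⟩⟩
        · rintro ⟨h1, h | ⟨h2, h3⟩⟩
          · exact absurd (h ▸ h1) hiA
          · exact ⟨Or.inr ⟨h2, h1⟩, h3⟩
      have e2 : mv i j A ∪ B = A ∪ mv i j B := by
        ext x
        simp only [mem_union, mem_mv]
        by_cases hx : x = j
        · rw [hx]
          tauto
        · tauto
      rw [e1, e2]
      exact h1
  · have h1 : (A ∩ B).card ≤ (mv i j A ∩ B).card := by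
      apply card_le_card
      intro x hx
      rw [mem_inter] at hx
      rw [mem_inter, mem_mv]
      exact ⟨Or.inr ⟨fun h => hjB (h ▸ hx.2), hx.1⟩, hx.2⟩
    have h2 : (mv i j A ∪ B).card ≤ (A ∪ B).card := by
      have h3 : mv i j A ∪ B ⊆ insert i ((A ∪ B).erase j) := by
        intro x hx
        rw [mem_union, mem_mv] at hx
        rw [mem_insert, mem_erase, mem_union]
        rcases hx with (h | ⟨h1, h2⟩) | h
        · exact Or.inl h
        · exact Or.inr ⟨h1, Or.inl h2⟩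
        · exact Or.inr ⟨fun h4 => hjB (h4 ▸ h), Or.inr h⟩
      have h4 := card_le_card h3
      have h5 := card_insert_le i ((A ∪ B).erase j)
      have h6 := card_erase_add_one (mem_union_left B hjA)
      omega
    exact ⟨h0.1.trans h1, h2.trans h0.2⟩

private theorem sum_mv (i j : ℕ) (A : Finset ℕ) (hij : i < j) (hjA : j ∈ A) (hiA : i ∉ A) :
    ∑ x ∈ mv i j A, x < ∑ x ∈ A, x := by
  unfold mv
  rw [sum_insert (fun h => hiA (mem_of_mem_erase h))]
  have := add_sum_erase A (fun x => x) hjA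
  omega

private theorem step (n t c i j : ℕ) (F : Finset (Finset ℕ)) (hF : On n F) (hI : Inv t c F)
    (hij : i < j) (A₀ : Finset ℕ) (hA₀ : A₀ ∈ F) (hj₀ : j ∈ A₀) (hi₀ : i ∉ A₀) (hm₀ : mv i j A₀ ∉ F) :
    ∃ G : Finset (Finset ℕ), On n G ∧ Inv t c G ∧ G.card = F.card ∧
      ∑ A ∈ G, ∑ x ∈ A, x < ∑ A ∈ F, ∑ x ∈ A, x := by
  classical
  let g : Finset ℕ → Finset ℕ := fun A => if j ∈ A ∧ i ∉ A ∧ mv i j A ∉ F then mv i j A else A
  have hg1 : ∀ A, (j ∈ A ∧ i ∉ A ∧ mv i j A ∉ F) → g A = mv i j A := fun A h => if_pos h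
  have hg2 : ∀ A, ¬ (j ∈ A ∧ i ∉ A ∧ mv i j A ∉ F) → g A = A := fun A h => if_neg h
  have hinj : Set.InjOn g (F : Set (Finset ℕ)) := by
    intro A hA B hB hAB
    rw [mem_coe] at hA hB
    by_cases h1 : j ∈ A ∧ i ∉ A ∧ mv i j A ∉ F <;> by_cases h2 : j ∈ B ∧ i ∉ B ∧ mv i j B ∉ F
    · rw [hg1 A h1, hg1 B h2] at hAB
      exact mv_inj i j A B hij.ne h1.1 h1.2.1 h2.1 h2.2.1 hAB
    · rw [hg1 A h1, hg2 B h2] at hAB
      exact absurd hB (hAB ▸ h1.2.2)
    · rw [hg2 A h1, hg1 B h2] at hAB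
      exact absurd hA (hAB.symm ▸ h2.2.2)
    · rw [hg2 A h1, hg2 B h2] at hAB
      exact hAB
  refine ⟨F.image g, ?_, ?_, card_image_of_injOn hinj, ?_⟩
  · intro X hX
    rw [mem_image] at hX
    obtain ⟨A, hA, rfl⟩ := hX
    by_cases h1 : j ∈ A ∧ i ∉ A ∧ mv i j A ∉ F
    · rw [hg1 A h1]
      intro x hx
      rw [mem_mv] at hx
      rcases hx with rfl | ⟨-, hx⟩
      · have := mem_range.1 (hF A hA h1.1)
        exact mem_range.2 (by omega)
      · exact hF A hA hx
    · rw [hg2 A h1]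
      exact hF A hA
  · intro X hX Y hY
    rw [mem_image] at hX hY
    obtain ⟨A, hA, rfl⟩ := hX
    obtain ⟨B, hB, rfl⟩ := hY
    by_cases h1 : j ∈ A ∧ i ∉ A ∧ mv i j A ∉ F <;> by_cases h2 : j ∈ B ∧ i ∉ B ∧ mv i j B ∉ F
    · rw [hg1 A h1, hg1 B h2]
      obtain ⟨h3, h4⟩ := both i j A B hij.ne h1.1 h1.2.1 h2.1 h2.2.1
      rw [h3, h4]
      exact hI A hA B hB
    · rw [hg1 A h1, hg2 B h2]
      exact one t c i j F hI A B hA hB hij.ne h1.1 h1.2.1 h2
    · rw [hg2 A h1, hg1 B h2, inter_comm, union_comm]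
      exact one t c i j F hI B A hB hA hij.ne h2.1 h2.2.1 h1
    · rw [hg2 A h1, hg2 B h2]
      exact hI A hA B hB
  · rw [sum_image hinj]
    refine sum_lt_sum ?_ ⟨A₀, hA₀, ?_⟩
    · intro A _
      by_cases h1 : j ∈ A ∧ i ∉ A ∧ mv i j A ∉ F
      · rw [hg1 A h1]
        exact (sum_mv i j A hij h1.1 h1.2.1).le
      · rw [hg2 A h1]
    · rw [hg1 A₀ ⟨hj₀, hi₀, hm₀⟩]
      exact sum_mv i j A₀ hij hj₀ hi₀

theorem exists_shifted (n t c : ℕ) (F : Finset (Finset ℕ)) (hF : On n F) (hI : Inv t c F) :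
    ∃ G : Finset (Finset ℕ), On n G ∧ Inv t c G ∧ Shifted G ∧ G.card = F.card := by
  classical
  induction hw : ∑ A ∈ F, ∑ x ∈ A, x using Nat.strong_induction_on generalizing F with
  | _ w ih =>
    by_cases hS : Shifted F
    · exact ⟨F, hF, hI, hS, rfl⟩
    · unfold Shifted at hS
      push Not at hS
      obtain ⟨A, hA, i, j, hij, hj, hi, hm⟩ := hS
      obtain ⟨G, h1, h2, h3, h4⟩ := step n t c i j F hF hI hij A hA hj hi hm
      obtain ⟨G', h5, h6, h7, h8⟩ := ih _ (hw ▸ h4) G h1 h2 rfl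
      exact ⟨G', h5, h6, h7, h8.trans h3⟩

end Pool.Agent.H30.KF
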